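import Pool.Agent.H929.BW.Stm

/-!
# BW: collisions into clusters
-/

set_option autoImplicit false

namespace Pool.Agent.H643.BW

open Finset Pool.Agent.TH3.IR Pool.Agent.Y55.Col Pool.Agent.H929.BW

/-- the points of a finite type are treated one after another -/
theorem clusters {ι : Type} [Fintype ι] (Q : Multiset ℕ → Prop) (R : ℕ → Multiset ℕ → Prop)
    (hQ : ∀ (μ : ℕ) (M M' : Multiset ℕ), Q (μ ::ₘ M) → R μ M' → Q (M' + M)) (m : ℕ)
    (w s : ι → ℕ) (h : Q ((univ : Finset ι).val.map w))
    (hR : ∀ i, R (w i) (Multiset.replicate (s i) m)) :
    Q (Multiset.replicate (∑ i, s i) m) := by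
  classical
  have key : ∀ A : Finset ι, Q (Multiset.replicate (∑ i ∈ A, s i) m +
      ((univ : Finset ι) \ A).val.map w) := by
    intro A
    induction A using Finset.induction_on with
    | empty => simpa using h
    | insert a A ha ih =>
      have h1 : ((univ : Finset ι) \ A).val.map w =
          w a ::ₘ ((univ : Finset ι) \ insert a A).val.map w := by
        have h2 : (univ : Finset ι) \ A = insert a ((univ : Finset ι) \ insert a A) := by
          ext x
          simp only [mem_sdiff, mem_univ, true_and, mem_insert, not_or]
          by_cases hx : x = a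
          · simp [hx, ha]
          · simp [hx]
        rw [h2, insert_val_of_notMem (by simp), Multiset.map_cons]
      rw [h1, Multiset.add_cons] at ih
      have h3 := hQ _ _ _ ih (hR a)
      rw [sum_insert ha, Multiset.replicate_add, add_assoc]
      exact h3
  have h4 := key univ
  simpa using h4

theorem t_COLLE : S_COLLE := by
  intro ι _ E D m w s h h'
  exact clusters (Emp E D) (Emp E) (fun μ M M' h1 h2 => h1.collision h2) m w s h h'

theorem t_COLLS : S_COLLS := by
  intro ι _ n D m w s h h'
  exact clusters (Ind n D) (Ind n) (fun μ M M' h1 h2 => h1.collision h2) m w s h h'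

end Pool.Agent.H643.BW
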